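import Mathlib

set_option autoImplicit false

namespace Pool.Agent.Results.MP_371ff7_co.Median8

open Finset

variable {V : Type} [Fintype V] [DecidableEq V]

/-- The interval `[u,v]`. -/
noncomputable def I (G : SimpleGraph V) (u v : V) : Finset V :=
  univ.filter (fun x => G.dist u x + G.dist x v = G.dist u v)

def IsMedian (G : SimpleGraph V) : Prop :=
  G.Connected ∧ ∀ u v w, (I G u v ∩ I G u w ∩ I G v w).card = 1

noncomputable def d3 (G : SimpleGraph V) (u v w : V) : ℕ := G.dist u v + G.dist u w + G.dist v w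

noncomputable def diam (G : SimpleGraph V) : ℕ := univ.sup fun p : V × V => G.dist p.1 p.2

noncomputable def tr (G : SimpleGraph V) : ℕ := univ.sup fun p : V × V × V => d3 G p.1 p.2.1 p.2.2

def E : List (Fin 8 × Fin 8) := [(3, 0), (4, 1), (5, 2), (6, 0), (6, 1), (7, 0), (7, 1), (7, 2)]

def H : SimpleGraph (Fin 8) where
  Adj a b := (a, b) ∈ E ∨ (b, a) ∈ E
  symm := ⟨fun _ _ h => h.symm⟩
  loopless := ⟨by decide⟩

instance : DecidableRel H.Adj := fun a b => inferInstanceAs (Decidable ((a, b) ∈ E ∨ (b, a) ∈ E))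

def D : Fin 8 → Fin 8 → ℕ :=
  ![![0, 2, 2, 1, 3, 3, 1, 1], ![2, 0, 2, 3, 1, 3, 1, 1], ![2, 2, 0, 3, 3, 1, 3, 1],
    ![1, 3, 3, 0, 4, 4, 2, 2], ![3, 1, 3, 4, 0, 4, 2, 2], ![3, 3, 1, 4, 4, 0, 4, 2],
    ![1, 1, 3, 2, 2, 4, 0, 2], ![1, 1, 1, 2, 2, 2, 2, 0]]

lemma D_le {u v : Fin 8} (p : H.Walk u v) : D u v ≤ p.length := by
  have h1 : ∀ u, D u u = 0 := by decide
  have h2 : ∀ u w v, H.Adj u w → D u v ≤ D w v + 1 := by decide
  induction p with
  | nil => rw [h1]; exact Nat.zero_le _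
  | cons h p ih => exact (h2 _ _ _ h).trans (Nat.succ_le_succ ih)

lemma ex_walk (n : ℕ) : ∀ u v, D u v = n → ∃ p : H.Walk u v, p.length = n := by
  have h1 : ∀ u v, D u v = 0 → u = v := by decide
  have h2 : ∀ u v, D u v ≠ 0 → ∃ w, H.Adj u w ∧ D w v + 1 = D u v := by decide
  induction n with
  | zero => intro u v h; obtain rfl := h1 u v h; exact ⟨.nil, rfl⟩
  | succ n ih =>
    intro u v h
    obtain ⟨w, h3, h4⟩ := h2 u v (by omega)
    obtain ⟨p, hp⟩ := ih w v (by omega)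
    exact ⟨.cons h3 p, by simp [hp]⟩

lemma conn : H.Connected :=
  ⟨fun u v => let ⟨p, _⟩ := ex_walk _ u v rfl; ⟨p⟩⟩

lemma dist_eq (u v : Fin 8) : H.dist u v = D u v := by
  obtain ⟨p, hp⟩ := ex_walk _ u v rfl
  obtain ⟨q, hq⟩ := conn.exists_walk_length_eq_dist u v
  exact le_antisymm (hp ▸ SimpleGraph.dist_le p) (hq ▸ D_le q)

/-- A median graph with a diametral pair that extends to no triametral triple. -/
theorem result : ∃ (n : ℕ) (G : SimpleGraph (Fin n)) (x y : Fin n), IsMedian G ∧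
    G.dist x y = diam G ∧ ∀ z, d3 G x y z < tr G := by
  refine ⟨8, H, 5, 6, ⟨conn, ?_⟩, ?_, ?_⟩
  · simp only [I, dist_eq]; decide +kernel
  · simp only [diam, dist_eq]; decide +kernel
  · simp only [tr, d3, dist_eq]; decide +kernel

end Pool.Agent.Results.MP_371ff7_co.Median8
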